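import Pool.Agent.N64.AF.M1
import Pool.Agent.N64.AF.L1

/-!
# Rational K-theory and motivic cohomology on the powers of a variety over a finite field: definitions
-/

set_option autoImplicit false

open CategoryTheory Limits MonoidalCategory Module Filter Topology
open Pool.Agent.Y112.SR Pool.Agent.Y112.KD Pool.Agent.N64.AF
open scoped ENNReal

namespace Pool.Agent.Zk51.BP

universe v u w

section Pairing

variable {V : Type v} [AddCommGroup V] [Module ℚ V]

/-- Each linear form on the subspace `B` is the product with a unique element of the subspace `A`. -/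
def LeftPerfect (p : V → V → ℚ) (A B : Submodule ℚ V) : Prop :=
  ∀ f : B →ₗ[ℚ] ℚ, ∃! x : A, ∀ y : B, p x y = f y

/-- The pairing `p` of the subspaces `A` and `B` is perfect: each linear form on one of them is the
product with a unique element of the other one. -/
def Perfect (p : V → V → ℚ) (A B : Submodule ℚ V) : Prop :=
  LeftPerfect p A B ∧ LeftPerfect (fun y x => p x y) B A

theorem perfect_iff (b : V →ₗ[ℚ] V →ₗ[ℚ] ℚ) (A B : Submodule ℚ V) :
    Perfect (fun x y => b x y) A B ↔ (b.domRestrict₁₂ A B).IsPerfPair := by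
  have h1 : LeftPerfect (fun x y => b x y) A B ↔ Function.Bijective (b.domRestrict₁₂ A B) := by
    rw [Function.bijective_iff_existsUnique]
    refine forall_congr' fun f => existsUnique_congr fun x => ?_
    exact (LinearMap.ext_iff (f := (b.domRestrict₁₂ A B) x) (g := f)).symm
  have h2 : LeftPerfect (fun y x => b x y) B A ↔
      Function.Bijective (b.domRestrict₁₂ A B).flip := by
    rw [Function.bijective_iff_existsUnique]
    refine forall_congr' fun f => existsUnique_congr fun x => ?_
    exact (LinearMap.ext_iff (f := (b.domRestrict₁₂ A B).flip x) (g := f)).symm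
  constructor
  · rintro ⟨h3, h4⟩
    exact ⟨h1.1 h3, h2.1 h4⟩
  · intro h
    exact ⟨h1.2 h.bijective_left, h2.2 h.bijective_right⟩

end Pairing

section Total

variable (C : Type u) [Category.{v} C] [Preadditive C] [Linear ℚ C]

/-- An additive functor `F` to vector spaces over `ℚ`: the total rational `K`-theory
`Z ↦ ⨁ K_j(Z)_ℚ = ⨁ H^i(Z, ℚ(m))`, on which correspondences act. -/
structure TotalK where
  F : C ⥤ ModuleCat.{v} ℚ
  [additive : F.Additive]
  [linear : F.Linear ℚ]

attribute [instance] TotalK.additive TotalK.linear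

variable {C}

/-- The vector space `⨁ K_j(Z)_ℚ`. -/
abbrev TotalK.Grp (F : TotalK C) (Z : C) : Type v := F.F.obj Z

instance TotalK.grp (F : TotalK C) (Z : C) : AddCommGroup (F.Grp Z) := (F.F.obj Z).isAddCommGroup

instance TotalK.mod (F : TotalK C) (Z : C) : Module ℚ (F.Grp Z) := (F.F.obj Z).isModule

/-- The action of a correspondence. -/
abbrev TotalK.act (F : TotalK C) {Y Z : C} (f : Y ⟶ Z) (x : F.Grp Y) : F.Grp Z := (F.F.map f).hom x

end Total

variable {C : Type u} [Category.{v} C] [Preadditive C] [MonoidalCategory C]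
  [MonoidalPreadditive C] [SymmetricCategory C] [RightRigidCategory C]
  [Linear ℚ C] [MonoidalLinear ℚ C]

/-- The rational motivic cohomology of the powers of a smooth projective variety `X` over a finite
field: here `C` is the category of the smooth projective varieties with the groups `CH^*(X × Y)_ℚ` (all
codimensions) as morphisms, `T` is the object `X`, `tp T n` is the power `X ^ n` and
`𝟙_ C ⟶ tp T n` is the Chow group `CH^*(X ^ n)_ℚ`. -/
structure MotivicData (T : C) where
  /-- the total rational `K`-theory `Z ↦ ⨁ K_j(Z)_ℚ = ⨁ H^i(Z, ℚ(m))` -/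
  tot : TotalK C
  /-- `K_j(Z)_ℚ = ⨁ CH^m(Z, j)_ℚ` -/
  K : ℕ → ∀ Z : C, Submodule ℚ (tot.Grp Z)
  /-- `H n i m` is the motivic cohomology `H^i(X ^ n, ℚ(m))` -/
  H : ∀ n : ℕ, ℤ → ℤ → Submodule ℚ (tot.Grp (tp T n))
  /-- the class in `K_0(Z)_ℚ` of a cycle on `Z` -/
  cl : ∀ Z : C, (𝟙_ C ⟶ Z) →ₗ[ℚ] tot.Grp Z
  /-- the dimension of `X` -/
  dim : ℤ
  /-- the cup product on `X ^ n` followed by the degree -/
  cup : ∀ n : ℕ, tot.Grp (tp T n) →ₗ[ℚ] tot.Grp (tp T n) →ₗ[ℚ] ℚ
  /-- the number of elements of the finite field -/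
  q : ℚ
  /-- the graph of the Frobenius endomorphism of `X ^ n` -/
  fr : ∀ n : ℕ, tp T n ⟶ tp T n

namespace MotivicData

variable {T : C} (D : MotivicData T)

/-- The total `K`-group of `X ^ n`. -/
abbrev V (n : ℕ) : Type v := D.tot.Grp (tp T n)

/-- `K_j(X ^ n)_ℚ`. -/
abbrev KX (j n : ℕ) : Submodule ℚ (D.V n) := D.K j (tp T n)

/-- The dimension of `X ^ n`. -/
def dimX (n : ℕ) : ℤ := n * D.dim

/-- The cup product of two classes on `X ^ n`, followed by the degree. -/
noncomputable def prod (n : ℕ) (x y : D.V n) : ℚ := D.cup n x y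

/-- The intersection number of two cycles on `X ^ n`. -/
noncomputable def int (n : ℕ) (α β : 𝟙_ C ⟶ tp T n) : ℚ := D.prod n (D.cl _ α) (D.cl _ β)

/-- Correspondences act on the groups `K_j`, and on the classes of cycles; the higher `K`-groups of a
finite field are torsion (Quillen). -/
structure IsFunctorial : Prop where
  act : ∀ (j : ℕ) (Y Z : C) (f : Y ⟶ Z), ∀ x ∈ D.K j Y, D.tot.act f x ∈ D.K j Z
  cl : ∀ (Y Z : C) (α : 𝟙_ C ⟶ Y) (f : Y ⟶ Z), D.cl Z (α ≫ f) = D.tot.act f (D.cl Y α)
  point : ∀ j, j ≠ 0 → D.K j (𝟙_ C) = ⊥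

/-- The total space is the direct sum of the groups `K_j`, and these are the direct sums of the
groups `H^i(X ^ n, ℚ(m))` with `2 m - i = j`, which vanish for `i > 2 m`. -/
structure IsGraded (n : ℕ) : Prop where
  internal : DirectSum.IsInternal fun j => D.KX j n
  eq : ∀ j, D.KX j n = ⨆ m : ℤ, D.H n (2 * m - j) m
  indep : ∀ j : ℕ, iSupIndep fun m : ℤ => D.H n (2 * m - j) m
  zero : ∀ i m, 2 * m < i → D.H n i m = ⊥

/-- `K_0` is given by the Chow groups; only groups of complementary degree and weight have nonzero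
products; for cycles the product is the intersection number, which is symmetric; the classes with
intersection numbers zero are the numerically trivial ones. -/
structure IsProduct (n : ℕ) : Prop where
  injective : Function.Injective (D.cl (tp T n))
  range : LinearMap.range (D.cl (tp T n)) = D.KX 0 n
  zero : ∀ i m i' m', i + i' ≠ 2 * D.dimX n ∨ m + m' ≠ D.dimX n →
    ∀ x ∈ D.H n i m, ∀ y ∈ D.H n i' m', D.prod n x y = 0
  symm : ∀ α β, D.int n α β = D.int n β α
  num : ∀ α, (∀ β, D.int n α β = 0) ↔ NumTriv α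

/-- The Frobenius endomorphism acts on `H^i(X ^ n, ℚ(m))` by `q ^ m`. -/
def IsFrobenius (n : ℕ) : Prop := ∀ i m, ∀ x ∈ D.H n i m, D.tot.act (D.fr n) x = D.q ^ m • x

/-- The pairing `⟨ , ⟩_{i, m}` of `H^i(X ^ n, ℚ(m))` and `H^{2 d - i}(X ^ n, ℚ(d - m))`, where `d` is
the dimension of `X ^ n`, is perfect. -/
def PerfectAt (n : ℕ) (i m : ℤ) : Prop :=
  Perfect (D.prod n) (D.H n i m) (D.H n (2 * D.dimX n - i) (D.dimX n - m))

/-- All the pairings of the question are perfect for `X ^ n`. -/
def AllPerfect (n : ℕ) : Prop := ∀ i m : ℤ, D.PerfectAt n i m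

/-- A polynomial in the Frobenius correspondence of `X ^ n`. -/
noncomputable def frPoly (n : ℕ) (P : Polynomial ℚ) : tp T n ⟶ tp T n :=
  Polynomial.aeval (R := ℚ) (A := End (tp T n)) (D.fr n) P

/-- The Tate conjecture (strong form) for `X ^ n` in codimension `m`: the part of the numerical motive
of `X ^ n` on which the Frobenius endomorphism is `q ^ m` is a sum of Tate motives, that is, some
polynomial in the Frobenius correspondence with the value one at `q ^ m` is, modulo numerical
equivalence, a sum of products of cycles. -/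
def Tate (n : ℕ) (m : ℤ) : Prop :=
  ∃ P : Polynomial ℚ, P.eval (D.q ^ m) = 1 ∧
    ∃ (s : ℕ) (β : Fin s → (tp T n ⟶ 𝟙_ C)) (α : Fin s → (𝟙_ C ⟶ tp T n)),
      NumTriv (D.frPoly n P - ∑ j, β j ≫ α j)

end MotivicData

/-- The known properties of the data. -/
structure IsMotivicData {T : C} (D : MotivicData T) : Prop where
  functorial : D.IsFunctorial
  graded : ∀ n, D.IsGraded n
  product : ∀ n, D.IsProduct n
  frobenius : ∀ n, D.IsFrobenius n

end Pool.Agent.Zk51.BP
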