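import Pool.Agent.Zk51.BP.Tate

/-!
# The laws for the `K`-groups of the powers of a variety
-/

set_option autoImplicit false
set_option linter.unusedSectionVars false

open CategoryTheory Limits MonoidalCategory Module Filter Topology
open Pool.Agent.Y112.SR Pool.Agent.Y112.KD Pool.Agent.N64.AF
open scoped ENNReal

namespace Pool.Agent.Zk51.BP

universe v u w

variable {C : Type u} [Category.{v} C] [Preadditive C] [MonoidalCategory C]
  [MonoidalPreadditive C] [SymmetricCategory C] [RightRigidCategory C]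
  [Linear ℚ C] [MonoidalLinear ℚ C] {T : C} {D : MotivicData T}
  {K : Type w} [Field K] [IsAlgClosed K] [Algebra ℚ K] {R : SuperRealisation C K}

namespace IsMotivicData

/-- **The law for one `K`-group.** -/
theorem K_law [ExactPairing T T] (h : IsPow ℚ R T) (hD : IsMotivicData D) (j : ℕ) :
    ∃ N : ℕ∞, RatioTo ℚ T (fun n => dimE ℚ (D.K j (tp T n))) N ∧
      (N = 0 ↔ ∀ n, D.K j (tp T n) = ⊥) ∧
      (∀ k : ℕ, N = k → (∀ n, Module.Finite ℚ (D.K j (tp T n))) ∧
        ∀ (a b : ℕ) (f : tp T a ⟶ tp T b), NumPow T k f →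
          ∀ x ∈ D.K j (tp T a), (D.tot.F.map f).hom x = 0) ∧
      ((∀ n m, D.Tate n m) → j ≠ 0 → N = 0 ∨ N = ⊤) := by
  obtain ⟨N, h1, h2, h3⟩ := law h (sub D.tot.F (D.K j) (hD.stab j))
  have h2' : N = 0 ↔ ∀ n, D.K j (tp T n) = ⊥ :=
    h2.trans (forall_congr' fun n => Submodule.subsingleton_iff_eq_bot)
  refine ⟨N, h1, h2', ?_, ?_⟩
  · rintro k rfl
    refine ⟨fun n => ((h3 (ENat.natCast_ne_top k)).1 n).1, fun a b f hf x hx => ?_⟩
    have h4 := (structure_thm h (sub D.tot.F (D.K j) (hD.stab j)) (N := k) h1).2 a b f hf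
    have h5 := congrArg (fun q : (sub D.tot.F (D.K j) (hD.stab j)).obj (tp T a) ⟶
      (sub D.tot.F (D.K j) (hD.stab j)).obj (tp T b) => (q.hom ⟨x, hx⟩ : D.K j (tp T b)).1) h4
    exact h5
  · intro hT hj
    by_cases hN : N = ⊤
    · exact Or.inr hN
    · left
      rw [h2']
      intro n
      exact hD.K_bot_of_tate hj (hT n) ((h3 hN).1 n).2.2

/-- The numerically trivial cycles as a functor. -/
lemma num_stab' (hR : IsReal ℚ R) : IsStab (homF ℚ (𝟙_ C))
    (fun Z => (numIdeal ℚ (𝟙_ C) Z : Submodule ℚ ((homF ℚ (𝟙_ C)).obj Z))) := by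
  intro Y Z f a ha
  have h := NumTriv.comp hR (f := (a : 𝟙_ C ⟶ Y)) ha (𝟙 _) f
  rw [Category.id_comp] at h
  exact h

lemma dimE_add {V : Type v} [AddCommGroup V] [Module ℚ V] (S : Submodule ℚ V) :
    dimE ℚ V = dimE ℚ (V ⧸ S) + dimE ℚ S := by
  unfold dimE
  rw [← Submodule.rank_quotient_add_rank S, map_add]

lemma dimE_congr {V W : Type v} [AddCommGroup V] [Module ℚ V] [AddCommGroup W] [Module ℚ W]
    (e : V ≃ₗ[ℚ] W) : dimE ℚ V = dimE ℚ W := by
  unfold dimE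
  rw [e.rank_eq]

/-- The dimension of the total `K`-group. -/
theorem dim_eq (hR : IsReal ℚ R) (hD : IsMotivicData D) (n : ℕ) :
    dimE ℚ (D.tot.F.obj (tp T n)) = dimE ℚ (D.tot.F.obj (tp T n) ⧸ D.K 0 (tp T n)) +
      dimE ℚ (𝟙_ C ⟶ tp T n) ∧
    dimE ℚ (𝟙_ C ⟶ tp T n) = numRank ℚ (tp T n) + dimE ℚ (numIdeal ℚ (𝟙_ C) (tp T n)) := by
  constructor
  · rw [dimE_add (D.K 0 (tp T n))]
    congr 1
    have e := LinearEquiv.ofInjective (D.cl (tp T n)) (hD.cl_injective n)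
    rw [hD.cl_range n] at e
    exact (dimE_congr e).symm
  · rw [dimE_add (numIdeal ℚ (𝟙_ C) (tp T n))]
    have h6 := finite_num hR (𝟙_ C) (tp T n)
    rw [dimE_eq]
    rfl

lemma ratio_add {a b : ℕ → ℕ∞} {N M : ℕ∞} (ha : RatioTo ℚ T a N) (hb : RatioTo ℚ T b M) :
    RatioTo ℚ T (fun n => a n + b n) (N + M) := by
  unfold RatioTo at *
  have h1 := ha.add hb
  refine (h1.congr fun n => ?_).trans ?_
  · rw [ENat.toENNReal_add, ENNReal.add_div]
  · rw [ENat.toENNReal_add]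

lemma ratio_unique {a : ℕ → ℕ∞} {N M : ℕ∞} (ha : RatioTo ℚ T a N) (hb : RatioTo ℚ T a M) :
    N = M := by
  have h := tendsto_nhds_unique ha hb
  exact_mod_cast h

lemma ratio_one [ExactPairing T T] (h : IsPow ℚ R T) :
    RatioTo ℚ T (fun n => (numRank ℚ (tp T n) : ℕ∞)) 1 := by
  unfold RatioTo
  refine tendsto_const_nhds.congr fun n => ?_
  have h6 : (numRank ℚ (tp T n) : ℝ≥0∞) ≠ 0 := by
    exact_mod_cast (numRank_mono h n).1.ne'
  symm
  rw [ENat.toENNReal_one]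
  exact ENNReal.div_self h6 (ENNReal.natCast_ne_top _)

end IsMotivicData

end Pool.Agent.Zk51.BP
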