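import Pool.Agent.Zk51.BP.Defs

/-!
# Perfectness of the pairings in terms of the cycle classes
-/

set_option autoImplicit false
set_option linter.unusedSectionVars false

open CategoryTheory Limits MonoidalCategory Module Filter Topology
open Pool.Agent.Y112.SR Pool.Agent.Y112.KD Pool.Agent.N64.AF
open scoped ENNReal

namespace Pool.Agent.Zk51.BP

universe v u w

variable {C : Type u} [Category.{v} C] [Preadditive C] [MonoidalCategory C]
  [MonoidalPreadditive C] [SymmetricCategory C] [RightRigidCategory C]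
  [Linear ℚ C] [MonoidalLinear ℚ C] {T : C} {D : MotivicData T}

namespace IsMotivicData

lemma stab (hD : IsMotivicData D) (j : ℕ) : IsStab D.tot.F (D.K j) :=
  fun Y Z f x hx => hD.functorial.act j Y Z f x hx

lemma K_eq (hD : IsMotivicData D) (n j : ℕ) :
    D.K j (tp T n) = ⨆ m : ℤ, D.H n (2 * m - j) m := (hD.graded n).eq j

lemma internal (hD : IsMotivicData D) (n : ℕ) :
    DirectSum.IsInternal fun j => D.K j (tp T n) := (hD.graded n).internal

lemma H_zero (hD : IsMotivicData D) (n : ℕ) (i m : ℤ) (h : 2 * m < i) : D.H n i m = ⊥ :=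
  (hD.graded n).zero i m h

lemma cl_injective (hD : IsMotivicData D) (n : ℕ) : Function.Injective (D.cl (tp T n)) :=
  (hD.product n).injective

lemma cl_range (hD : IsMotivicData D) (n : ℕ) : LinearMap.range (D.cl (tp T n)) = D.K 0 (tp T n) :=
  (hD.product n).range

lemma cup_zero (hD : IsMotivicData D) (n : ℕ) (i m i' m' : ℤ)
    (h : ¬ (i + i' = 2 * D.dimX n ∧ m + m' = D.dimX n)) (x : D.V n) (hx : x ∈ D.H n i m)
    (y : D.V n) (hy : y ∈ D.H n i' m') : D.cup n x y = 0 :=
  (hD.product n).zero i m i' m' (not_and_or.1 h) x hx y hy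

lemma cup_symm (hD : IsMotivicData D) (n : ℕ) (α β : 𝟙_ C ⟶ tp T n) :
    D.cup n (D.cl _ α) (D.cl _ β) = D.cup n (D.cl _ β) (D.cl _ α) := (hD.product n).symm α β

lemma cup_cl (hD : IsMotivicData D) (n : ℕ) (α : 𝟙_ C ⟶ tp T n) :
    (∀ β : 𝟙_ C ⟶ tp T n, D.cup n (D.cl _ α) (D.cl _ β) = 0) ↔ NumTriv α := (hD.product n).num α

lemma frob (hD : IsMotivicData D) (n : ℕ) (i m : ℤ) (x : D.V n) (hx : x ∈ D.H n i m) :
    (D.tot.F.map (D.fr n)).hom x = D.q ^ m • x := hD.frobenius n i m x hx

lemma point (hD : IsMotivicData D) (j : ℕ) (hj : j ≠ 0) : D.K j (𝟙_ C) = ⊥ :=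
  hD.functorial.point j hj

/-- The pairing as a bilinear map. -/
noncomputable def pairing (D : MotivicData T) (n : ℕ) (i m : ℤ) :
    D.H n i m →ₗ[ℚ] D.H n (2 * D.dimX n - i) (D.dimX n - m) →ₗ[ℚ] ℚ :=
  (D.cup n).domRestrict₁₂ _ _

lemma perfectAt_iff (D : MotivicData T) (n : ℕ) (i m : ℤ) :
    D.PerfectAt n i m ↔ (pairing D n i m).IsPerfPair := perfect_iff _ _ _

lemma H_le_K (hD : IsMotivicData D) (n : ℕ) (i m : ℤ) (j : ℕ) (h : 2 * m - i = j) :
    D.H n i m ≤ D.K j (tp T n) := by
  rw [hD.K_eq]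
  have h1 : 2 * m - (j : ℤ) = i := by omega
  calc D.H n i m = D.H n (2 * m - j) m := by rw [h1]
    _ ≤ _ := le_iSup (fun m : ℤ => D.H n (2 * m - j) m) m

lemma iSup_K (hD : IsMotivicData D) (n : ℕ) : ⨆ j, D.K j (tp T n) = ⊤ :=
  (hD.internal n).submodule_iSup_eq_top

lemma K_eq_bot (hD : IsMotivicData D) {n : ℕ} (h : D.K 0 (tp T n) = ⊤) {j : ℕ} (hj : j ≠ 0) :
    D.K j (tp T n) = ⊥ := by
  have h1 := (hD.internal n).submodule_iSupIndep.pairwiseDisjoint hj
  change Disjoint (D.K j (tp T n)) (D.K 0 (tp T n)) at h1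
  rw [h, disjoint_top] at h1
  exact h1

lemma H_eq_bot (hD : IsMotivicData D) {n : ℕ} (h : D.K 0 (tp T n) = ⊤) {i m : ℤ}
    (hi : i ≠ 2 * m) : D.H n i m = ⊥ := by
  rcases lt_or_gt_of_ne hi with h1 | h1
  · obtain ⟨j, hj⟩ := Int.eq_ofNat_of_zero_le (a := 2 * m - i) (by omega)
    rw [eq_bot_iff, ← hD.K_eq_bot h (j := j) (by omega)]
    exact hD.H_le_K n i m j hj
  · exact hD.H_zero n i m h1

/-- The bilinear map of a pairing between trivial spaces is perfect. -/
lemma perfect_of_bot {n : ℕ} {i m : ℤ} (h1 : D.H n i m = ⊥)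
    (h2 : D.H n (2 * D.dimX n - i) (D.dimX n - m) = ⊥) : (pairing D n i m).IsPerfPair := by
  have i1 : Subsingleton (D.H n i m) := Submodule.subsingleton_iff_eq_bot.2 h1
  have i2 : Subsingleton (D.H n (2 * D.dimX n - i) (D.dimX n - m)) :=
    Submodule.subsingleton_iff_eq_bot.2 h2
  have i3 : Subsingleton (D.H n i m →ₗ[ℚ] ℚ) := ⟨fun a b => LinearMap.ext fun x => by
    rw [Subsingleton.elim x 0, map_zero, map_zero]⟩
  have i4 : Subsingleton (D.H n (2 * D.dimX n - i) (D.dimX n - m) →ₗ[ℚ] ℚ) :=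
    ⟨fun a b => LinearMap.ext fun x => by rw [Subsingleton.elim x 0, map_zero, map_zero]⟩
  exact ⟨⟨Function.injective_of_subsingleton _, fun y => ⟨0, Subsingleton.elim _ _⟩⟩,
    ⟨Function.injective_of_subsingleton _, fun y => ⟨0, Subsingleton.elim _ _⟩⟩⟩

/-- An element of `H^(2 m)(X ^ n, ℚ(m))` with products zero with the complementary group has products
zero with everything. -/
lemma cup_all (hD : IsMotivicData D) {n : ℕ} {i m : ℤ} {x : D.tot.F.obj (tp T n)} (hx : x ∈ D.H n i m)
    (h : ∀ y ∈ D.H n (2 * D.dimX n - i) (D.dimX n - m), D.cup n x y = 0)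
    (y : D.tot.F.obj (tp T n)) : D.cup n x y = 0 := by
  have h1 : (⊤ : Submodule ℚ (D.tot.F.obj (tp T n))) ≤ LinearMap.ker (D.cup n x) := by
    rw [← hD.iSup_K n]
    refine iSup_le fun j => ?_
    rw [hD.K_eq]
    refine iSup_le fun m' => fun y hy => ?_
    rw [LinearMap.mem_ker]
    by_cases hc : i + (2 * m' - j) = 2 * D.dimX n ∧ m + m' = D.dimX n
    · have e1 : 2 * m' - (j : ℤ) = 2 * D.dimX n - i := by omega
      have e2 : m' = D.dimX n - m := by omega
      rw [e1] at hy
      rw [e2] at hy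
      exact h y hy
    · exact hD.cup_zero n i m _ _ hc x hx y hy
  exact h1 (Submodule.mem_top (x := y))

lemma cup_all' (hD : IsMotivicData D) {n : ℕ} {i m : ℤ} {y : D.tot.F.obj (tp T n)}
    (hy : y ∈ D.H n (2 * D.dimX n - i) (D.dimX n - m))
    (h : ∀ x ∈ D.H n i m, D.cup n x y = 0)
    (x : D.tot.F.obj (tp T n)) : D.cup n x y = 0 := by
  have h1 : (⊤ : Submodule ℚ (D.tot.F.obj (tp T n))) ≤ LinearMap.ker ((D.cup n).flip y) := by
    rw [← hD.iSup_K n]
    refine iSup_le fun j => ?_
    rw [hD.K_eq]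
    refine iSup_le fun m' => fun x hx => ?_
    rw [LinearMap.mem_ker, LinearMap.flip_apply]
    by_cases hc : (2 * m' - j) + (2 * D.dimX n - i) = 2 * D.dimX n ∧
        m' + (D.dimX n - m) = D.dimX n
    · have e1 : 2 * m' - (j : ℤ) = i := by omega
      have e2 : m' = m := by omega
      rw [e1] at hx
      rw [e2] at hx
      exact h x hx
    · exact hD.cup_zero n _ _ _ _ hc x hx y hy
  exact h1 (Submodule.mem_top (x := x))

/-- **The pairings are perfect if and only if everything is given by cycles modulo numerical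
equivalence.** -/
theorem allPerfect_iff (hD : IsMotivicData D) (n : ℕ)
    (hfin : Module.Finite ℚ ((𝟙_ C ⟶ tp T n) ⧸ numIdeal ℚ (𝟙_ C) (tp T n))) :
    D.AllPerfect n ↔ D.K 0 (tp T n) = ⊤ ∧ ∀ α : 𝟙_ C ⟶ tp T n, NumTriv α → α = 0 := by
  constructor
  · intro h
    have hK : D.K 0 (tp T n) = ⊤ := by
      rw [eq_top_iff, ← hD.iSup_K n]
      refine iSup_le fun j => ?_
      rcases Nat.eq_zero_or_pos j with rfl | hj
      · exact le_rfl
      · rw [hD.K_eq n j]
        refine iSup_le fun m => ?_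
        have h2 : D.H n (2 * D.dimX n - (2 * m - j)) (D.dimX n - m) = ⊥ :=
          hD.H_zero n _ _ (by omega)
        have i2 : Subsingleton (D.H n (2 * D.dimX n - (2 * m - j)) (D.dimX n - m)) :=
          Submodule.subsingleton_iff_eq_bot.2 h2
        have i4 : Subsingleton (D.H n (2 * D.dimX n - (2 * m - j)) (D.dimX n - m) →ₗ[ℚ] ℚ) :=
          ⟨fun a b => LinearMap.ext fun x => by rw [Subsingleton.elim x 0, map_zero, map_zero]⟩
        have i1 : Subsingleton (D.H n (2 * m - j) m) :=
          ((perfectAt_iff _ _ _ _).1 (h (2 * m - j) m)).bijective_left.injective.subsingleton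
        rw [Submodule.subsingleton_iff_eq_bot.1 i1]
        exact bot_le
    refine ⟨hK, fun α hα => ?_⟩
    -- numerically trivial cycles
    apply hD.cl_injective n
    rw [map_zero]
    set x := D.cl (tp T n) α with hx
    have hx0 : x ∈ ⨆ m : ℤ, D.H n (2 * m - (0 : ℕ)) m := by
      rw [← hD.K_eq, hK]
      exact Submodule.mem_top
    obtain ⟨f, hf, hsum⟩ := (Submodule.mem_iSup_iff_exists_finsupp _ _).1 hx0
    have hcup : ∀ y : D.tot.F.obj (tp T n), D.cup n x y = 0 := by
      intro y
      have hy : y ∈ LinearMap.range (D.cl (tp T n)) := by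
        rw [hD.cl_range, hK]
        exact Submodule.mem_top
      obtain ⟨β, rfl⟩ := hy
      exact (hD.cup_cl n α).2 hα β
    have key : ∀ m, f m = 0 := by
      intro m
      have h1 : ∀ y ∈ D.H n (2 * D.dimX n - 2 * m) (D.dimX n - m), D.cup n (f m) y = 0 := by
        intro y hy
        have h2 := hcup y
        rw [← hsum, Finsupp.sum, map_sum, LinearMap.sum_apply] at h2
        by_cases hm : m ∈ f.support
        · rw [Finset.sum_eq_single_of_mem m hm] at h2
          · exact h2
          · intro b _ hb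
            refine hD.cup_zero n _ _ _ _ ?_ _ (hf b) y hy
            rintro ⟨-, h3⟩
            exact hb (by omega)
        · rw [Finsupp.notMem_support_iff.1 hm, map_zero, LinearMap.zero_apply]
      have h3 : (f m) ∈ D.H n (2 * m) m := by
        have h4 := hf m
        have e : (2 * m - ((0 : ℕ) : ℤ)) = 2 * m := by omega
        rw [e] at h4
        exact h4
      have h4 := ((perfectAt_iff _ _ _ _).1 (h (2 * m) m)).bijective_left.injective
        (a₁ := (⟨f m, h3⟩ : D.H n (2 * m) m)) (a₂ := 0) (by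
          rw [map_zero]
          apply LinearMap.ext
          intro y
          exact h1 y.1 y.2)
      exact congrArg Subtype.val h4
    rw [← hsum]
    refine Finset.sum_eq_zero fun m _ => key m
  · rintro ⟨hK, hnum⟩ i m
    rw [perfectAt_iff]
    by_cases hi : i = 2 * m
    · -- cycles
      subst hi
      have hfin' : Module.Finite ℚ (𝟙_ C ⟶ tp T n) := by
        have h5 : numIdeal ℚ (𝟙_ C) (tp T n) = ⊥ := by
          rw [eq_bot_iff]
          intro α hα
          exact hnum α hα
        exact Module.Finite.equiv (Submodule.quotEquivOfEqBot _ h5)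
      have hrange : LinearMap.range (D.cl (tp T n)) = ⊤ := by rw [hD.cl_range, hK]
      have hfin2 : Module.Finite ℚ (D.tot.F.obj (tp T n)) :=
        Module.Finite.of_surjective (D.cl (tp T n)) (LinearMap.range_eq_top.1 hrange)
      have hzero : ∀ x : D.tot.F.obj (tp T n), (∀ y, D.cup n x y = 0) → x = 0 := by
        intro x hx
        obtain ⟨α, rfl⟩ := LinearMap.range_eq_top.1 hrange x
        have h1 : NumTriv α := (hD.cup_cl n α).1 fun β => hx _
        rw [hnum α h1, map_zero]
      have hzero' : ∀ y : D.tot.F.obj (tp T n), (∀ x, D.cup n x y = 0) → y = 0 := by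
        intro y hy
        apply hzero y
        intro x
        obtain ⟨α, rfl⟩ := LinearMap.range_eq_top.1 hrange x
        obtain ⟨β, rfl⟩ := LinearMap.range_eq_top.1 hrange y
        rw [hD.cup_symm]
        exact hy _
      refine LinearMap.IsPerfPair.of_injective ?_ ?_
      · rw [injective_iff_map_eq_zero]
        intro x hx
        apply Subtype.ext
        refine hzero _ (hD.cup_all x.2 fun y hy => ?_)
        exact LinearMap.congr_fun hx ⟨y, hy⟩
      · rw [injective_iff_map_eq_zero]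
        intro y hy
        apply Subtype.ext
        refine hzero' _ (hD.cup_all' y.2 fun x hx => ?_)
        exact LinearMap.congr_fun hy ⟨x, hx⟩
    · exact perfect_of_bot (hD.H_eq_bot hK hi) (hD.H_eq_bot hK (by omega))

end IsMotivicData

end Pool.Agent.Zk51.BP
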