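import Pool.Agent.Zk51.BP.Perfect

/-!
# The action of the Frobenius correspondence, and the Tate conjecture
-/

set_option autoImplicit false
set_option linter.unusedSectionVars false

open CategoryTheory Limits MonoidalCategory Module Filter Topology
open Pool.Agent.Y112.SR Pool.Agent.Y112.KD Pool.Agent.N64.AF
open scoped ENNReal

namespace Pool.Agent.Zk51.BP

universe v u w

variable {C : Type u} [Category.{v} C] [Preadditive C] [MonoidalCategory C]
  [MonoidalPreadditive C] [SymmetricCategory C] [RightRigidCategory C]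
  [Linear ℚ C] [MonoidalLinear ℚ C] {T : C} {D : MotivicData T}

namespace IsMotivicData

lemma cl_comp (hD : IsMotivicData D) {Y Z : C} (α : 𝟙_ C ⟶ Y) (f : Y ⟶ Z) :
    D.cl Z (α ≫ f) = (D.tot.F.map f).hom (D.cl Y α) := hD.functorial.cl Y Z α f

lemma map_sub' (D : MotivicData T) {Y Z : C} (f g : Y ⟶ Z) (x : D.tot.F.obj Y) :
    (D.tot.F.map (f - g)).hom x = (D.tot.F.map f).hom x - (D.tot.F.map g).hom x := by
  rw [D.tot.F.map_sub]
  rfl

lemma map_sum' (D : MotivicData T) {Y Z : C} {s : ℕ} (f : Fin s → (Y ⟶ Z)) (x : D.tot.F.obj Y) :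
    (D.tot.F.map (∑ j, f j)).hom x = ∑ j, (D.tot.F.map (f j)).hom x := by
  rw [D.tot.F.map_sum, ModuleCat.hom_sum, LinearMap.sum_apply]

lemma map_comp' (D : MotivicData T) {X Y Z : C} (f : X ⟶ Y) (g : Y ⟶ Z) (x : D.tot.F.obj X) :
    (D.tot.F.map (f ≫ g)).hom x = (D.tot.F.map g).hom ((D.tot.F.map f).hom x) := by
  rw [D.tot.F.map_comp]
  rfl

/-- Polynomials in the Frobenius correspondence. -/
lemma frPoly_act (hD : IsMotivicData D) {n : ℕ} {i m : ℤ} {x : D.tot.F.obj (tp T n)}
    (hx : x ∈ D.H n i m) (P : Polynomial ℚ) :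
    (D.tot.F.map (D.frPoly n P)).hom x = P.eval (D.q ^ m) • x := by
  have hpow : ∀ k : ℕ, (D.tot.F.map ((show End (tp T n) from D.fr n) ^ k : End (tp T n))).hom x =
      (D.q ^ m) ^ k • x := by
    intro k
    induction k with
    | zero =>
      have h0 : (D.tot.F.map (𝟙 (tp T n))).hom x = x := by
        rw [D.tot.F.map_id, ModuleCat.hom_id, LinearMap.id_apply]
      rw [pow_zero (D.q ^ m), one_smul]
      exact h0
    | succ k ih =>
      rw [pow_succ', pow_succ]
      change (D.tot.F.map (((show End (tp T n) from D.fr n) ^ k : End (tp T n)) ≫ D.fr n)).hom x = _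
      rw [map_comp', ih, map_smul, hD.frob n i m x hx, smul_smul]
  induction P using Polynomial.induction_on' with
  | add P Q hP hQ =>
    have h1 : D.frPoly n (P + Q) = D.frPoly n P + D.frPoly n Q := by
      unfold MotivicData.frPoly
      rw [map_add]
    rw [h1, D.tot.F.map_add, Polynomial.eval_add, add_smul, ← hP, ← hQ]
    rfl
  | monomial k c =>
    have h1 : D.frPoly n (Polynomial.monomial k c) =
        c • ((show End (tp T n) from D.fr n) ^ k : End (tp T n)) := by
      unfold MotivicData.frPoly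
      rw [Polynomial.aeval_monomial, ← Algebra.smul_def]
    have h2 : (D.tot.F.map (D.frPoly n (Polynomial.monomial k c))).hom x =
        c • (D.tot.F.map ((show End (tp T n) from D.fr n) ^ k : End (tp T n))).hom x := by
      rw [h1]
      have h3 := congrArg (fun q : D.tot.F.obj (tp T n) ⟶ D.tot.F.obj (tp T n) => q.hom x)
        (Functor.map_smul D.tot.F c ((show End (tp T n) from D.fr n) ^ k : End (tp T n)))
      exact h3
    rw [h2, hpow, Polynomial.eval_monomial, smul_smul]

/-- Elements of `H^i(X ^ n, ℚ(m))` in the case of the Tate conjecture: they are fixed by a numerically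
trivial correspondence if the cycles act trivially on them. -/
lemma fixed (hD : IsMotivicData D) {n : ℕ} {i m : ℤ} {x : D.tot.F.obj (tp T n)}
    (hx : x ∈ D.H n i m) (hT : D.Tate n m)
    (h0 : ∀ β : tp T n ⟶ 𝟙_ C, (D.tot.F.map β).hom x = 0) :
    ∃ y : tp T n ⟶ tp T n, NumTriv y ∧ (D.tot.F.map y).hom x = x := by
  obtain ⟨P, hP, s, β, α, hy⟩ := hT
  refine ⟨_, hy, ?_⟩
  rw [map_sub', map_sum', hD.frPoly_act hx, hP, one_smul]
  have h1 : ∑ j, (D.tot.F.map (β j ≫ α j)).hom x = 0 := by
    refine Finset.sum_eq_zero fun j _ => ?_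
    rw [map_comp', h0, map_zero]
  rw [h1, sub_zero]

lemma eq_zero_of_fixed (D : MotivicData T) {n : ℕ} {x : D.tot.F.obj (tp T n)} {y : tp T n ⟶ tp T n}
    (hnil : ∃ k : ℕ, ∀ a : D.tot.F.obj (tp T n), a = x →
      (((D.tot.F.map y).hom : Module.End ℚ (D.tot.F.obj (tp T n))) ^ k) a = 0)
    (hx : (D.tot.F.map y).hom x = x) : x = 0 := by
  obtain ⟨k, hk⟩ := hnil
  have h1 : ∀ k : ℕ, (((D.tot.F.map y).hom : Module.End ℚ (D.tot.F.obj (tp T n))) ^ k) x = x := by
    intro k
    induction k with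
    | zero => rfl
    | succ k ih => rw [pow_succ, Module.End.mul_apply, hx, ih]
  rw [← h1 k]
  exact hk x rfl

lemma sub_pow {F : C ⥤ ModuleCat.{v} ℚ} {S : ∀ Z, Submodule ℚ (F.obj Z)} (hS : IsStab F S)
    {Y : C} (f : Y ⟶ Y) (k : ℕ) : ∀ a : S Y, (((((sub F S hS).map f).hom :
      Module.End ℚ ((sub F S hS).obj Y)) ^ k) a : S Y).1 =
      (((F.map f).hom : Module.End ℚ (F.obj Y)) ^ k) a.1 := by
  induction k with
  | zero => intro a; rfl
  | succ k ih =>
    intro a
    have e1 : (((((sub F S hS).map f).hom : Module.End ℚ ((sub F S hS).obj Y)) ^ (k + 1)) a : S Y) =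
        ((((sub F S hS).map f).hom : Module.End ℚ ((sub F S hS).obj Y)) ^ k)
          (((sub F S hS).map f).hom a) := by
      rw [pow_succ]
      rfl
    have e2 : (((F.map f).hom : Module.End ℚ (F.obj Y)) ^ (k + 1)) a.1 =
        (((F.map f).hom : Module.End ℚ (F.obj Y)) ^ k) ((F.map f).hom a.1) := by
      rw [pow_succ]
      rfl
    rw [e2]
    exact (congrArg Subtype.val e1).trans (ih _)

/-- The higher `K`-groups vanish if the Tate conjecture holds and the numerically trivial
correspondences act on them in a nilpotent way. -/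
theorem K_bot_of_tate (hD : IsMotivicData D) {j : ℕ} (hj : j ≠ 0) {n : ℕ}
    (hT : ∀ m, D.Tate n m)
    (hnil : ∀ y : tp T n ⟶ tp T n, NumTriv y →
      IsNilpotent (((sub D.tot.F (D.K j) (hD.stab j)).map y).hom :
        Module.End ℚ ((sub D.tot.F (D.K j) (hD.stab j)).obj (tp T n)))) :
    D.K j (tp T n) = ⊥ := by
  rw [eq_bot_iff]
  conv_lhs => rw [hD.K_eq n j]
  refine iSup_le fun m => ?_
  intro x hx
  have hxK : x ∈ D.K j (tp T n) := by
    rw [hD.K_eq]
    exact (le_iSup (fun m : ℤ => D.H n (2 * m - j) m) m) hx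
  rw [Submodule.mem_bot]
  obtain ⟨y, hy, hfix⟩ := hD.fixed hx (hT m) (fun β => by
    have h1 := hD.stab j β hxK
    rw [hD.point j hj] at h1
    exact h1)
  refine eq_zero_of_fixed D (y := y) ?_ hfix
  obtain ⟨k, hk⟩ := hnil y hy
  refine ⟨k, ?_⟩
  rintro a rfl
  have h2 := sub_pow (hD.stab j) y k ⟨a, hxK⟩
  rw [hk] at h2
  exact h2.symm

end IsMotivicData

end Pool.Agent.Zk51.BP
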