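import Pool.Agent.Zk51.BP.Law
import Pool.Agent.N64.AF.M6

/-!
# The law for the total `K`-group
-/

set_option autoImplicit false
set_option linter.unusedSectionVars false

open CategoryTheory Limits MonoidalCategory Module Filter Topology
open Pool.Agent.Y112.SR Pool.Agent.Y112.KD Pool.Agent.N64.AF
open scoped ENNReal

namespace Pool.Agent.Zk51.BP

universe v u w

variable {C : Type u} [Category.{v} C] [Preadditive C] [MonoidalCategory C]
  [MonoidalPreadditive C] [SymmetricCategory C] [RightRigidCategory C]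
  [Linear ℚ C] [MonoidalLinear ℚ C] {T : C} {D : MotivicData T}
  {K : Type w} [Field K] [IsAlgClosed K] [Algebra ℚ K] {R : SuperRealisation C K}

namespace IsMotivicData

/-- The numerically trivial cycles vanish if the Tate conjecture holds and numerically trivial
correspondences act in a nilpotent way on the total `K`-group. -/
theorem num_zero_of_tate (hR : IsReal ℚ R) (hD : IsMotivicData D) {n : ℕ} (hT : ∀ m, D.Tate n m)
    (hnil : ∀ y : tp T n ⟶ tp T n, NumTriv y →
      IsNilpotent ((D.tot.F.map y).hom : Module.End ℚ (D.tot.F.obj (tp T n))))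
    {α : 𝟙_ C ⟶ tp T n} (hα : NumTriv α) : α = 0 := by
  apply hD.cl_injective n
  rw [map_zero]
  have hx0 : D.cl (tp T n) α ∈ ⨆ m : ℤ, D.H n (2 * m - (0 : ℕ)) m := by
    rw [← hD.K_eq, ← hD.cl_range]
    exact ⟨α, rfl⟩
  obtain ⟨f, hf, hsum⟩ := (Submodule.mem_iSup_iff_exists_finsupp _ _).1 hx0
  have hcl : ∀ m, ∃ γ : 𝟙_ C ⟶ tp T n, D.cl _ γ = f m := by
    intro m
    have h1 : f m ∈ D.K 0 (tp T n) := by
      rw [hD.K_eq]
      exact (le_iSup (fun m : ℤ => D.H n (2 * m - (0 : ℕ)) m) m) (hf m)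
    rw [← hD.cl_range] at h1
    exact h1
  have hcup : ∀ β : 𝟙_ C ⟶ tp T n, D.cup n (D.cl (tp T n) α) (D.cl _ β) = 0 :=
    (hD.cup_cl n α).2 hα
  have key : ∀ m, f m = 0 := by
    intro m
    obtain ⟨γ, hγ⟩ := hcl m
    have h3 : (f m) ∈ D.H n (2 * m) m := by
      have h4 := hf m
      have e : (2 * m - ((0 : ℕ) : ℤ)) = 2 * m := by omega
      rw [e] at h4
      exact h4
    have h1 : ∀ y ∈ D.H n (2 * D.dimX n - 2 * m) (D.dimX n - m), D.cup n (f m) y = 0 := by
      intro y hy
      obtain ⟨β, rfl⟩ : y ∈ LinearMap.range (D.cl (tp T n)) := by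
        rw [hD.cl_range]
        exact hD.H_le_K n _ _ 0 (by push_cast; ring) hy
      have h2 := hcup β
      rw [← hsum, Finsupp.sum, map_sum, LinearMap.sum_apply] at h2
      by_cases hm : m ∈ f.support
      · rw [Finset.sum_eq_single_of_mem m hm] at h2
        · exact h2
        · intro b _ hb
          refine hD.cup_zero n _ _ _ _ ?_ _ (hf b) _ hy
          rintro ⟨-, h3⟩
          exact hb (by omega)
      · rw [Finsupp.notMem_support_iff.1 hm, map_zero, LinearMap.zero_apply]
    have hnum : NumTriv γ := (hD.cup_cl n γ).1 fun β => by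
      rw [hγ]
      exact hD.cup_all h3 h1 _
    obtain ⟨y, hy, hfix⟩ := hD.fixed h3 (hT m) (fun β => by
      rw [← hγ, ← hD.cl_comp, (numTriv_unit_iff hR γ).1 hnum β, map_zero])
    refine eq_zero_of_fixed D (y := y) ?_ hfix
    obtain ⟨k, hk⟩ := hnil y hy
    exact ⟨k, fun a _ => by rw [hk, LinearMap.zero_apply]⟩
  rw [← hsum]
  exact Finset.sum_eq_zero fun m _ => key m

/-- The nilpotence on the total group implies the nilpotence on each group. -/
lemma nil_K (hD : IsMotivicData D) (j : ℕ) {n : ℕ} {y : tp T n ⟶ tp T n}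
    (h : IsNilpotent ((D.tot.F.map y).hom : Module.End ℚ (D.tot.F.obj (tp T n)))) :
    IsNilpotent (((sub D.tot.F (D.K j) (hD.stab j)).map y).hom :
      Module.End ℚ ((sub D.tot.F (D.K j) (hD.stab j)).obj (tp T n))) :=
  sub_nil (hD.stab j) y h

/-- Finitely many of the groups `K_j`. -/
lemma sum_finrank_le (hD : IsMotivicData D) (n : ℕ) [Module.Finite ℚ (D.tot.F.obj (tp T n))]
    (S : Finset ℕ) :
    ∑ j ∈ S, finrank ℚ (D.K j (tp T n)) ≤ finrank ℚ (D.tot.F.obj (tp T n)) := by
  have h1 : ∑ j ∈ S, finrank ℚ (D.K j (tp T n)) =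
      finrank ℚ (⨆ j ∈ S, D.K j (tp T n) : Submodule ℚ (D.tot.F.obj (tp T n))) := by
    classical
    induction S using Finset.induction_on with
    | empty =>
      have e : (⨆ j ∈ (∅ : Finset ℕ), D.K j (tp T n)) = ⊥ := by simp
      rw [Finset.sum_empty, e, finrank_bot]
    | insert j S hj ih =>
      rw [Finset.sum_insert hj, ih, Finset.iSup_insert]
      have h2 : Disjoint (D.K j (tp T n)) (⨆ j ∈ S, D.K j (tp T n)) :=
        (hD.internal n).submodule_iSupIndep.disjoint_biSup (y := (S : Set ℕ)) hj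
      have h3 := Submodule.finrank_sup_add_finrank_inf_eq (D.K j (tp T n))
        (⨆ j ∈ S, D.K j (tp T n))
      rw [h2.eq_bot, finrank_bot, add_zero] at h3
      exact h3.symm
  rw [h1]
  exact Submodule.finrank_le _

/-- **The law for the total `K`-group.** -/
theorem total_law [IsIdempotentComplete C] [ExactPairing T T] (h : IsPow ℚ R T)
    (hD : IsMotivicData D) :
    ∃ N : ℕ∞, N ≠ 0 ∧ RatioTo ℚ T (fun n => dimE ℚ (D.tot.F.obj (tp T n))) N ∧
      (N = 1 ↔ ∀ n, D.AllPerfect n) ∧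
      (∀ k : ℕ, N = k → (∀ n, Module.Finite ℚ (D.tot.F.obj (tp T n))) ∧
        (∃ S : Finset ℕ, S.card ≤ k ∧ ∀ j, j ∉ S → ∀ n, D.K j (tp T n) = ⊥) ∧
        (∀ (a b : ℕ) (f : tp T a ⟶ tp T b), NumPow T k f → f = 0) ∧
        Pool.Agent.R905.IsKimuraFinite T) ∧
      ((∀ n m, D.Tate n m) → N = 1 ∨ N = ⊤) := by
  -- the three functors
  obtain ⟨N, h1, -, h3⟩ := law h D.tot.F
  obtain ⟨N₁, a1, a2, -⟩ := law h (quoS D.tot.F (D.K 0) (hD.stab 0))
  obtain ⟨N₂, b1, b2, -⟩ := law h (sub (homF ℚ (𝟙_ C)) (numS ℚ) (num_stab h.real))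
  obtain ⟨M, c0, c1, -, c3⟩ := chow_law h
  have hsum2 : RatioTo ℚ T (fun n => dimE ℚ (𝟙_ C ⟶ tp T n)) (1 + N₂) := by
    have e : (fun n => dimE ℚ (𝟙_ C ⟶ tp T n)) = fun n => (numRank ℚ (tp T n) : ℕ∞) +
        dimE ℚ (numIdeal ℚ (𝟙_ C) (tp T n)) := by
      funext n
      exact (hD.dim_eq h.real n).2
    rw [e]
    exact ratio_add (ratio_one h) b1
  have hsum : RatioTo ℚ T (fun n => dimE ℚ (D.tot.F.obj (tp T n))) (N₁ + (1 + N₂)) := by
    have e : (fun n => dimE ℚ (D.tot.F.obj (tp T n))) = fun n =>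
        dimE ℚ (D.tot.F.obj (tp T n) ⧸ D.K 0 (tp T n)) + dimE ℚ (𝟙_ C ⟶ tp T n) := by
      funext n
      exact (hD.dim_eq h.real n).1
    rw [e]
    exact ratio_add a1 hsum2
  have hN : N = N₁ + (1 + N₂) := ratio_unique h1 hsum
  have hM : M = 1 + N₂ := ratio_unique c1 hsum2
  have a2' : N₁ = 0 ↔ ∀ n, D.K 0 (tp T n) = ⊤ :=
    a2.trans (forall_congr' fun n => Submodule.Quotient.subsingleton_iff)
  have b2' : N₂ = 0 ↔ ∀ n, ∀ α : 𝟙_ C ⟶ tp T n, NumTriv α → α = 0 := by
    refine b2.trans (forall_congr' fun n => ?_)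
    refine (Submodule.subsingleton_iff_eq_bot (p := numIdeal ℚ (𝟙_ C) (tp T n))).trans ?_
    rw [Submodule.eq_bot_iff]
    rfl
  have hone : N = 1 ↔ ∀ n, D.AllPerfect n := by
    have e1 : N = 1 ↔ N₁ = 0 ∧ N₂ = 0 := by
      rw [hN]
      constructor
      · intro h5
        have h6 : N₁ + N₂ = 0 := by
          have h7 : (N₁ + N₂) + 1 = 0 + 1 := by
            calc (N₁ + N₂) + 1 = N₁ + (1 + N₂) := by rw [add_assoc, add_comm N₂ 1]
              _ = 0 + 1 := by rw [h5, zero_add]
          exact (ENat.add_left_injective_of_ne_top (by simp : (1 : ℕ∞) ≠ ⊤)) h7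
        exact ⟨(add_eq_zero.1 h6).1, (add_eq_zero.1 h6).2⟩
      · rintro ⟨h5, h6⟩
        rw [h5, h6, zero_add, add_zero]
    rw [e1, a2', b2', ← forall_and]
    exact forall_congr' fun n => (hD.allPerfect_iff n (finite_num h.real _ _)).symm
  refine ⟨N, ?_, h1, hone, ?_, ?_⟩
  · rw [hN]
    intro h5
    have h6 := (add_eq_zero.1 h5).2
    exact absurd (add_eq_zero.1 h6).1 one_ne_zero
  · intro k hk
    have hfin : ∀ n, Module.Finite ℚ (D.tot.F.obj (tp T n)) := fun n =>
      ((h3 (by rw [hk]; exact ENat.natCast_ne_top k)).1 n).1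
    refine ⟨hfin, ?_, ?_, ?_⟩
    · -- all but finitely many groups vanish
      choose L l1 l2 _ _ using fun j => hD.K_law h j
      have key : ∀ S : Finset ℕ, (∀ j ∈ S, L j ≠ 0) → S.card ≤ k := by
        intro S hS
        have h4 : RatioTo ℚ T (fun n => ∑ j ∈ S, dimE ℚ (D.K j (tp T n))) (∑ j ∈ S, L j) := by
          classical
          clear hS
          induction S using Finset.induction_on with
          | empty =>
            simp only [Finset.sum_empty]
            unfold RatioTo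
            simp
          | insert j S hj ih =>
            simp only [Finset.sum_insert hj]
            exact ratio_add (l1 j) ih
        have h5 : ∀ n, ∑ j ∈ S, dimE ℚ (D.K j (tp T n)) ≤ dimE ℚ (D.tot.F.obj (tp T n)) := by
          intro n
          have := hfin n
          rw [dimE_eq, Finset.sum_congr rfl fun j _ => dimE_eq (V := D.K j (tp T n)),
            ← Nat.cast_sum]
          exact_mod_cast hD.sum_finrank_le n S
        have h6 : ((∑ j ∈ S, L j : ℕ∞) : ℝ≥0∞) ≤ (N : ℝ≥0∞) := by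
          refine le_of_tendsto_of_tendsto' h4 h1 fun n => ?_
          exact ENNReal.div_le_div_right (by exact_mod_cast h5 n) _
        have h7 : ∑ j ∈ S, L j ≤ (k : ℕ∞) := by
          rw [← hk]
          exact_mod_cast h6
        have h8 : (S.card : ℕ∞) ≤ ∑ j ∈ S, L j := by
          calc (S.card : ℕ∞) = ∑ _j ∈ S, (1 : ℕ∞) := by rw [Finset.sum_const, nsmul_one]
            _ ≤ _ := Finset.sum_le_sum fun j hj => Order.one_le_iff_ne_zero.2 (hS j hj)
        exact_mod_cast h8.trans h7
      have hfinite : {j | L j ≠ 0}.Finite := by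
        by_contra hinf
        obtain ⟨S, hS1, hS2⟩ := Set.Infinite.exists_subset_card_eq hinf (k + 1)
        have h9 := key S fun j hj => hS1 hj
        omega
      refine ⟨hfinite.toFinset, key _ fun j hj => by simpa using hj, fun j hj n => ?_⟩
      have h9 : L j = 0 := by
        by_contra h10
        exact hj (by simpa using h10)
      exact (l2 j).1 h9 n
    · intro a b f hf
      have hM' : M ≠ ⊤ := by
        intro h5
        rw [hM] at h5
        rw [hN, h5, add_top] at hk
        exact ENat.natCast_ne_top k hk.symm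
      obtain ⟨m, hm⟩ := ENat.ne_top_iff_exists.1 hM'
      refine (c3 m hm.symm).2.1 a b f (hf.mono ?_)
      have h5 : (m : ℕ∞) ≤ k := by
        rw [hm, ← hk, hN, hM]
        exact le_add_self
      exact_mod_cast h5
    · have hM' : M ≠ ⊤ := by
        intro h5
        rw [hM] at h5
        rw [hN, h5, add_top] at hk
        exact ENat.natCast_ne_top k hk.symm
      obtain ⟨m, hm⟩ := ENat.ne_top_iff_exists.1 hM'
      exact (c3 m hm.symm).2.2
  · intro hT
    by_cases hN' : N = ⊤
    · exact Or.inr hN'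
    · left
      rw [hone]
      intro n
      rw [hD.allPerfect_iff n (finite_num h.real _ _)]
      have hnil : ∀ y : tp T n ⟶ tp T n, NumTriv y →
          IsNilpotent ((D.tot.F.map y).hom : Module.End ℚ (D.tot.F.obj (tp T n))) :=
        ((h3 hN').1 n).2.2
      refine ⟨?_, fun α hα => hD.num_zero_of_tate h.real (hT n) hnil hα⟩
      rw [eq_top_iff, ← hD.iSup_K n]
      refine iSup_le fun j => ?_
      by_cases hj : j = 0
      · rw [hj]
      · rw [hD.K_bot_of_tate hj (hT n) fun y hy => hD.nil_K j (hnil y hy)]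
        exact bot_le

/-- **The explicit criterion.** -/
theorem explicit [ExactPairing T T] (h : IsPow ℚ R T) (hD : IsMotivicData D) {m n : ℕ}
    (hn : 128 * (m + 1) ^ 2 * bt R T ^ (2 * m + 6) ≤ n) :
    (∀ j, 2 * dimE ℚ (D.K j (tp T n)) < numRank ℚ (tp T n) → D.K j (tp T m) = ⊥) ∧
      (2 * dimE ℚ (D.tot.F.obj (tp T n)) < 3 * (numRank ℚ (tp T n) : ℕ∞) → D.AllPerfect m) := by
  constructor
  · intro j hj
    obtain ⟨h2, h3⟩ := dimE_lt hj
    have h4 := explicit_criterion h (sub D.tot.F (D.K j) (hD.stab j)) hn h2 h3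
    exact Submodule.subsingleton_iff_eq_bot.1 h4
  · intro hlt
    obtain ⟨e1, e2⟩ := hD.dim_eq h.real n
    rw [e2] at e1
    have hlt' : 2 * (dimE ℚ (D.tot.F.obj (tp T n) ⧸ D.K 0 (tp T n)) +
        dimE ℚ (numIdeal ℚ (𝟙_ C) (tp T n))) < numRank ℚ (tp T n) := by
      rw [e1] at hlt
      set A := dimE ℚ (D.tot.F.obj (tp T n) ⧸ D.K 0 (tp T n))
      set B := dimE ℚ (numIdeal ℚ (𝟙_ C) (tp T n))
      have hA : A ≠ ⊤ := by
        rintro hA
        rw [hA, top_add, ENat.mul_top (by norm_num)] at hlt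
        exact not_top_lt hlt
      have hB : B ≠ ⊤ := by
        rintro hB
        rw [hB, add_top, add_top, ENat.mul_top (by norm_num)] at hlt
        exact not_top_lt hlt
      obtain ⟨a, ha⟩ := ENat.ne_top_iff_exists.1 hA
      obtain ⟨b, hb⟩ := ENat.ne_top_iff_exists.1 hB
      rw [← ha, ← hb] at hlt ⊢
      have h5 : 2 * (a + (numRank ℚ (tp T n) + b)) < 3 * numRank ℚ (tp T n) := by
        exact_mod_cast hlt
      have h6 : 2 * (a + b) < numRank ℚ (tp T n) := by omega
      exact_mod_cast h6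
    rw [hD.allPerfect_iff m (finite_num h.real _ _)]
    constructor
    · obtain ⟨h2, h3⟩ := dimE_lt (lt_of_le_of_lt (mul_le_mul_right le_self_add 2) hlt')
      have h4 := explicit_criterion h (quoS D.tot.F (D.K 0) (hD.stab 0)) hn h2 h3
      exact Submodule.Quotient.subsingleton_iff.1 h4
    · obtain ⟨h2, h3⟩ := dimE_lt (lt_of_le_of_lt (mul_le_mul_right le_add_self 2) hlt')
      have h4 := explicit_criterion h (sub (homF ℚ (𝟙_ C)) (numS ℚ) (num_stab h.real)) hn h2 h3
      intro α hα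
      have h5 := (Submodule.subsingleton_iff_eq_bot (p := numIdeal ℚ (𝟙_ C) (tp T m))).1 h4
      have h6 : α ∈ numIdeal ℚ (𝟙_ C) (tp T m) := hα
      rw [h5] at h6
      exact h6

end IsMotivicData

end Pool.Agent.Zk51.BP
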